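import Pool.Agent.Helper54.R1.Geo
import Pool.Agent.Helper54.R1.T0

/-!
# Packet R1-GA (MP_a8383f_co): the inequalities GA and GB
-/

set_option autoImplicit false

namespace Pool.Agent.Helper5.R1

open Real Pool.Agent.Helper66.Kiss Pool.Agent.Helper54.R1 Pool.Agent.Helper65.R1

theorem sqrt_three_quarters : √(1 - (1 / 2 : ℝ) ^ 2) = √3 / 2 := by
  rw [show (1 - (1 / 2 : ℝ) ^ 2) = 3 / 2 ^ 2 by norm_num, Real.sqrt_div (by norm_num),
    Real.sqrt_sq (by norm_num)]

theorem ga : GA_stmt := by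
  intro t h0 h1
  have h2 : (0 : ℝ) < √2 := by positivity
  have h3 : (0 : ℝ) < √3 := by positivity
  have hs2 : √2 * √2 = 2 := Real.mul_self_sqrt (by norm_num)
  have hs3 : √3 * √3 = 3 := Real.mul_self_sqrt (by norm_num)
  obtain ⟨x, hx⟩ : ∃ x, x = t / √2 := ⟨_, rfl⟩
  have hx2 : √2 * x = t := by rw [hx]; field_simp
  have hx0 : 0 ≤ x := by rw [hx]; positivity
  have hxt : x ≤ t := by
    rw [hx]
    apply div_le_self h0
    exact Real.one_le_sqrt.2 (by norm_num)
  have hsin : t - t ^ 3 / 12 ≤ √2 * sin x := by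
    rcases hx0.eq_or_lt with h | h
    · have : t = 0 := by rw [← hx2, ← h]; ring
      rw [this, ← h]
      simp
    · have h4 := Real.sin_gt_sub_cube h
      have h5 : √2 * (x - x ^ 3 / 6) = t - t ^ 3 / 12 := by
        rw [← hx2]
        have e : (√2 * x) ^ 3 = (√2 * √2) * (√2 * x ^ 3) := by ring
        rw [e, hs2]
        ring
      rw [← h5]
      exact mul_le_mul_of_nonneg_left h4.le h2.le
  have hsq : √(1 - t ^ 2) ≤ 1 - t ^ 2 / 2 := by
    apply Real.sqrt_le_iff.2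
    constructor
    · nlinarith
    · nlinarith [sq_nonneg (t ^ 2)]
  have hcos : cos (T0 + x) = (cos x - √2 * sin x) / √3 := by
    rw [Real.cos_add, cos_T0, sin_T0]
    field_simp
  unfold gg
  rw [← hx, sqrt_three_quarters, zero_sub, cos_neg, hcos]
  have hA : cos x - √2 * sin x ≤ 1 - t + t ^ 3 / 12 := by
    have := Real.cos_le_one x
    linarith
  have hA0 : 0 ≤ 1 - t + t ^ 3 / 12 := by
    have : 0 ≤ t ^ 3 / 12 := by positivity
    linarith
  have hB : √(1 - t ^ 2) * (cos x - √2 * sin x) ≤ 1 - t := by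
    calc √(1 - t ^ 2) * (cos x - √2 * sin x)
        ≤ √(1 - t ^ 2) * (1 - t + t ^ 3 / 12) :=
          mul_le_mul_of_nonneg_left hA (Real.sqrt_nonneg _)
      _ ≤ (1 - t ^ 2 / 2) * (1 - t + t ^ 3 / 12) := mul_le_mul_of_nonneg_right hsq hA0
      _ = (1 - t) - t ^ 2 * (1 / 2 - 7 / 12 * t) - t ^ 5 / 24 := by ring
      _ ≤ 1 - t := by
        have e1 : 0 ≤ t ^ 2 * (1 / 2 - 7 / 12 * t) := mul_nonneg (sq_nonneg t) (by linarith)
        have e2 : 0 ≤ t ^ 5 / 24 := by positivity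
        linarith
  have hC : √(1 - t ^ 2) * (√3 / 2) * ((cos x - √2 * sin x) / √3) =
      √(1 - t ^ 2) * (cos x - √2 * sin x) / 2 := by
    field_simp
  rw [hC]
  linarith

theorem gb : GB_stmt := by
  intro t h0 h1
  have h2 : (0 : ℝ) < √2 := by positivity
  have h3 : (0 : ℝ) < √3 := by positivity
  obtain ⟨x, hx⟩ : ∃ x, x = t / √2 := ⟨_, rfl⟩
  have hx2 : √2 * x = t := by rw [hx]; field_simp
  have hx0 : 0 ≤ x := by rw [hx]; positivity
  have hsin : √2 * sin x ≤ t := by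
    rw [← hx2]
    exact mul_le_mul_of_nonneg_left (Real.sin_le hx0) h2.le
  have hsq : √(1 - (-t) ^ 2) ≤ 1 := by
    apply Real.sqrt_le_one.2
    nlinarith [sq_nonneg t]
  have hcos : cos (T0 - x) = (cos x + √2 * sin x) / √3 := by
    rw [Real.cos_sub, cos_T0, sin_T0]
    field_simp
  unfold gg
  rw [← hx, sqrt_three_quarters, zero_sub, cos_neg, hcos]
  have hA : cos x + √2 * sin x ≤ 1 + t := by
    have := Real.cos_le_one x
    linarith
  have hB : √(1 - (-t) ^ 2) * (cos x + √2 * sin x) ≤ 1 + t := by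
    calc √(1 - (-t) ^ 2) * (cos x + √2 * sin x)
        ≤ √(1 - (-t) ^ 2) * (1 + t) := mul_le_mul_of_nonneg_left hA (Real.sqrt_nonneg _)
      _ ≤ 1 * (1 + t) := mul_le_mul_of_nonneg_right hsq (by linarith)
      _ = 1 + t := one_mul _
  have hC : √(1 - (-t) ^ 2) * (√3 / 2) * ((cos x + √2 * sin x) / √3) =
      √(1 - (-t) ^ 2) * (cos x + √2 * sin x) / 2 := by
    field_simp
  rw [hC]
  linarith

end Pool.Agent.Helper5.R1
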